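import Pool.Agent.N754.LG.Stm

/-!
A common zero of two coprime polynomials.
-/

set_option autoImplicit false
open MvPolynomial Pool.Agent.N754.LG

namespace Pool.Agent.N130.LG

open Polynomial in
/-- coprime polynomials over a UFD stay coprime over the fraction field -/
theorem isCoprime_map {A : Type} [CommRing A] [IsDomain A] [UniqueFactorizationMonoid A]
    (p q : Polynomial A) (hp : p ≠ 0) (hpq : ∀ d, d ∣ p → d ∣ q → IsUnit d) :
    IsCoprime (p.map (algebraMap A (FractionRing A))) (q.map (algebraMap A (FractionRing A))) := by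
  classical
  let : NormalizedGCDMonoid A := Classical.arbitrary (NormalizedGCDMonoid A)
  rw [← isRelPrime_iff_isCoprime]
  intro g hg1 hg2
  have hinj : Function.Injective (algebraMap A (FractionRing A)) := IsFractionRing.injective _ _
  have hp' : p.map (algebraMap A (FractionRing A)) ≠ 0 := (Polynomial.map_ne_zero_iff hinj).2 hp
  have hg0 : g ≠ 0 := by
    rintro rfl
    exact hp' (zero_dvd_iff.1 hg1)
  set D := IsLocalization.integerNormalization (nonZeroDivisors A) g with hD
  have hD0 : D ≠ 0 := fun h => hg0 (IsFractionRing.integerNormalization_eq_zero_iff.1 h)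
  obtain ⟨b, hb, hbD⟩ := IsLocalization.integerNormalization_spec (nonZeroDivisors A) g
  rw [← hD] at hbD
  have hb0 : b ≠ 0 := nonZeroDivisors.ne_zero hb
  have hprim : D.primPart.IsPrimitive := D.isPrimitive_primPart
  -- map of the primitive part divides g
  have hdvd : D.primPart.map (algebraMap A (FractionRing A)) ∣ g := by
    have h1 : D.primPart.map (algebraMap A (FractionRing A)) ∣
        D.map (algebraMap A (FractionRing A)) := by
      obtain ⟨e, he⟩ : D.primPart ∣ D := ⟨Polynomial.C D.content, by
        rw [mul_comm]; exact D.eq_C_content_mul_primPart⟩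
      exact ⟨e.map (algebraMap A (FractionRing A)), by rw [← Polynomial.map_mul, ← he]⟩
    rw [hbD] at h1
    have h2 : b • g = Polynomial.C (algebraMap A (FractionRing A) b) * g := by
      rw [Algebra.smul_def, Polynomial.algebraMap_apply]
    rw [h2] at h1
    have h3 : IsUnit (Polynomial.C (algebraMap A (FractionRing A) b)) := by
      rw [Polynomial.isUnit_C, isUnit_iff_ne_zero]
      exact fun h => hb0 (hinj (by rw [h, map_zero]))
    exact (h3.dvd_mul_left).1 h1
  have e1 : D.primPart ∣ p := hprim.dvd_of_fraction_map_dvd_fraction_map (hdvd.trans hg1)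
  have e2 : D.primPart ∣ q := hprim.dvd_of_fraction_map_dvd_fraction_map (hdvd.trans hg2)
  exact isUnit_or_eq_zero_of_isUnit_integerNormalization_primPart hg0 (hpq _ e1 e2)

theorem no_common_zero {A L : Type} [CommRing A] [IsDomain A] [UniqueFactorizationMonoid A]
    [Field L] (θ : A →+* L) (hθ : Function.Injective θ) (p q : Polynomial A) (hp : p ≠ 0)
    (hpq : ∀ d, d ∣ p → d ∣ q → IsUnit d) (z : L) (h1 : p.eval₂ θ z = 0) (h2 : q.eval₂ θ z = 0) :
    False := by
  obtain ⟨a, b, hab⟩ := isCoprime_map p q hp hpq
  set Θ : FractionRing A →+* L := IsFractionRing.lift hθ with hΘ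
  have hc : ∀ r : Polynomial A, (r.map (algebraMap A (FractionRing A))).eval₂ Θ z = r.eval₂ θ z := by
    intro r
    rw [Polynomial.eval₂_map]
    congr 1
    ext a
    simp [hΘ]
  have := congrArg (fun r => Polynomial.eval₂ Θ z r) hab
  simp only [Polynomial.eval₂_add, Polynomial.eval₂_mul, hc, h1, h2, mul_zero, add_zero,
    Polynomial.eval₂_one] at this
  exact zero_ne_one this

theorem co : CO := by
  intro κ L _ _ _ r x p q hp hq hpq hxp hxq i hi
  classical
  set e : MvPolynomial (Fin r) κ ≃ₐ[κ] Polynomial (MvPolynomial {j : Fin r // j ≠ i} κ) :=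
    (renameEquiv κ (Equiv.optionSubtypeNe i).symm).trans (optionEquivLeft κ {j : Fin r // j ≠ i})
    with he
  set θ : MvPolynomial {j : Fin r // j ≠ i} κ →ₐ[κ] L :=
    aeval (fun j : {j : Fin r // j ≠ i} => x j.1) with hθ
  have hinj : Function.Injective θ := hi
  have key : ∀ P : MvPolynomial (Fin r) κ,
      (e P).eval₂ (θ : MvPolynomial {j : Fin r // j ≠ i} κ →+* L) (x i) = aeval x P := by
    intro P
    induction P using MvPolynomial.induction_on with
    | C a =>
      simp [he, hθ]
    | add p q hp hq => rw [map_add, Polynomial.eval₂_add, hp, hq, map_add]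
    | mul_X p j hp =>
      rw [map_mul, Polynomial.eval₂_mul, hp, map_mul, aeval_X]
      congr 1
      by_cases hj : j = i
      · subst hj
        simp [he]
      · simp [he, Equiv.optionSubtypeNe_symm_of_ne hj, hθ]
  refine no_common_zero (θ : MvPolynomial {j : Fin r // j ≠ i} κ →+* L) hinj (e p) (e q) ?_ ?_
    (x i) ?_ ?_
  · exact fun h => hp (e.injective (by rw [h, map_zero]))
  · intro d hd1 hd2
    have h1 : e.symm d ∣ p := by
      have := map_dvd e.symm hd1
      rwa [AlgEquiv.symm_apply_apply] at this
    have h2 : e.symm d ∣ q := by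
      have := map_dvd e.symm hd2
      rwa [AlgEquiv.symm_apply_apply] at this
    have h3 := (hpq _ h1 h2).map e
    rwa [AlgEquiv.apply_symm_apply] at h3
  · rw [key, hxp]
  · rw [key, hxq]

end Pool.Agent.N130.LG
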