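import Pool.Agent.N754.LG.Stm

/-!
The Laurent curve through a point with Laurent coordinates.
-/

set_option autoImplicit false

open MvPolynomial Pool.Agent.N754.LG
open Pool.Agent.H159R3.Exp (Laur)

namespace Pool.Agent.N130.LG

/-- the point with the coordinate `i0` multiplied by `t` -/
def bt {K : Type} [Field K] {r : ℕ} (b : Fin r → K) (i0 : Fin r) (t : K) : Fin r → K :=
  fun i => b i * (if i = i0 then t else 1)

theorem bt_one {K : Type} [Field K] {r : ℕ} (b : Fin r → K) (i0 : Fin r) : bt b i0 1 = b := by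
  funext i
  simp [bt]

theorem bt_ne {K : Type} [Field K] {r : ℕ} {b : Fin r → K} (hb : ∀ i, b i ≠ 0) (i0 : Fin r)
    {t : K} (ht : t ≠ 0) (i : Fin r) : bt b i0 t i ≠ 0 := by
  unfold bt
  refine mul_ne_zero (hb i) ?_
  split_ifs
  · exact ht
  · exact one_ne_zero

theorem prod_bt {K : Type} [Field K] {r : ℕ} (b : Fin r → K) (i0 : Fin r) (t : K)
    (e : Fin r → ℕ) : ∏ i, bt b i0 t i ^ e i = t ^ e i0 * ∏ i, b i ^ e i := by
  classical
  unfold bt
  simp only [mul_pow, Finset.prod_mul_distrib]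
  rw [mul_comm]
  congr 1
  simp only [ite_pow, one_pow]
  rw [Finset.prod_ite_eq' Finset.univ i0 (fun i => t ^ e i)]
  simp

theorem laur_bt {K : Type} [Field K] {r : ℕ} (b : Fin r → K) (i0 : Fin r) (i : Fin r) :
    Laur fun t => bt b i0 t i := by
  unfold bt
  refine (Laur.const (b i)).mul ?_
  split_ifs
  · exact Laur.id
  · exact Laur.const 1

theorem zpow_split {K : Type} [Field K] {x : K} (hx : x ≠ 0) (e : ℤ) :
    x ^ e * x ^ (-e).toNat = x ^ e.toNat := by
  rw [← zpow_natCast, ← zpow_natCast, ← zpow_add₀ hx]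
  congr 1
  omega

theorem lc : LC := by
  intro k K _ _ _ _ κ r b hb n y hy hj
  classical
  obtain ⟨j1, c, hc, hc0, e, i0, he, hyj⟩ := hj
  choose β p hp using hy
  have hb0 : ∀ i, b i ≠ 0 := fun i => hb.ne_zero i
  set v : K → Fin n → K := fun t j => aeval (bt b i0 t) (p j) / ∏ i, bt b i0 t i ^ β j i with hv
  have hprod : ∀ (t : K), t ≠ 0 → ∀ f : Fin r → ℕ, ∏ i, bt b i0 t i ^ f i ≠ 0 := fun t ht f =>
    Finset.prod_ne_zero_iff.2 fun i _ => pow_ne_zero _ (bt_ne hb0 i0 ht i)
  have hprodb : ∀ f : Fin r → ℕ, ∏ i, b i ^ f i ≠ 0 := fun f =>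
    Finset.prod_ne_zero_iff.2 fun i _ => pow_ne_zero _ (hb0 i)
  have hv1 : v 1 = y := by
    funext j
    simp only [hv, bt_one]
    rw [← hp j, mul_div_cancel_right₀ _ (hprodb _)]
  have haev : ∀ (t : K) (f : Fin r → ℕ), aeval (bt b i0 t) (∏ i, (X i : MvPolynomial (Fin r) κ) ^ f i) =
      ∏ i, bt b i0 t i ^ f i := by
    intro t f
    simp [map_prod]
  refine ⟨v, ?_, hv1, ?_, ?_⟩
  · intro j
    have h1 : Laur fun t => aeval (bt b i0 t) (p j) :=
      Laur.eval₂ (algebraMap κ K) (fun t => bt b i0 t) (laur_bt b i0) (p j)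
    have h2 : (fun t => v t j) = fun t => aeval (bt b i0 t) (p j) *
        (t ^ (-(β j i0 : ℤ)) * (∏ i, b i ^ β j i)⁻¹) := by
      funext t
      simp only [hv]
      rw [prod_bt, zpow_neg, zpow_natCast, div_eq_mul_inv, mul_inv]
    rw [h2]
    exact h1.mul ((Laur.zpow _).mul (Laur.const _))
  · intro Q hQ t ht
    -- a common denominator
    have key : ∀ Q : MvPolynomial (Fin n) k, ∃ s P : MvPolynomial (Fin r) κ, ∀ t : K, t ≠ 0 →
        aeval (bt b i0 t) s ≠ 0 ∧
        aeval (bt b i0 t) P = aeval (v t) Q * aeval (bt b i0 t) s := by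
      intro Q
      induction Q using MvPolynomial.induction_on with
      | C a =>
        refine ⟨1, C (algebraMap k κ a), fun t ht => ⟨by simp, ?_⟩⟩
        rw [algHom_C, algHom_C, map_one, mul_one]
        rfl
      | add Q1 Q2 h1 h2 =>
        obtain ⟨s1, P1, h1⟩ := h1
        obtain ⟨s2, P2, h2⟩ := h2
        refine ⟨s1 * s2, P1 * s2 + P2 * s1, fun t ht => ⟨?_, ?_⟩⟩
        · rw [map_mul]
          exact mul_ne_zero (h1 t ht).1 (h2 t ht).1
        · rw [map_add, map_mul, map_mul, (h1 t ht).2, (h2 t ht).2, map_add, map_mul]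
          ring
      | mul_X Q1 j h1 =>
        obtain ⟨s1, P1, h1⟩ := h1
        refine ⟨s1 * ∏ i, X i ^ β j i, P1 * p j, fun t ht => ⟨?_, ?_⟩⟩
        · rw [map_mul, haev]
          exact mul_ne_zero (h1 t ht).1 (hprod t ht _)
        · rw [map_mul, map_mul, map_mul, haev, (h1 t ht).2, aeval_X]
          have h3 : aeval (bt b i0 t) (p j) = v t j * ∏ i, bt b i0 t i ^ β j i := by
            simp only [hv]
            rw [div_mul_cancel₀ _ (hprod t ht _)]
          rw [h3]
          ring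
    obtain ⟨s, P, hsP⟩ := key Q
    have h1 := (hsP 1 one_ne_zero).2
    rw [hv1, hQ, zero_mul, bt_one] at h1
    have hP : P = 0 := hb.eq_zero_of_aeval_eq_zero P h1
    have h2 := hsP t ht
    rw [hP, map_zero] at h2
    exact (mul_eq_zero.1 h2.2.symm).resolve_right h2.1
  · refine ⟨j1, ?_⟩
    have : CharZero K := charZero_of_injective_algebraMap (algebraMap k K).injective
    -- polynomial identity
    set c' : κ := ⟨c, hc⟩ with hc'
    have hid : p j1 * ∏ i, X i ^ (-e i).toNat =
        C c' * (∏ i, X i ^ (e i).toNat) * ∏ i, X i ^ β j1 i := by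
      apply hb
      rw [map_mul, map_mul, map_mul, ← hp j1, hyj, aeval_C]
      have h1 := haev 1
      simp only [bt_one] at h1
      rw [h1, h1, h1]
      have h2 : (∏ i, b i ^ e i) * ∏ i, b i ^ (-e i).toNat = ∏ i, b i ^ (e i).toNat := by
        rw [← Finset.prod_mul_distrib]
        exact Finset.prod_congr rfl fun i _ => zpow_split (hb0 i) (e i)
      have h3 : algebraMap κ K c' = c := rfl
      rw [h3, ← h2]
      ring
    have hval : ∀ t : K, t ≠ 0 → v t j1 = c * (∏ i, bt b i0 t i ^ (e i).toNat) /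
        ∏ i, bt b i0 t i ^ (-e i).toNat := by
      intro t ht
      have h1 := congrArg (aeval (bt b i0 t)) hid
      rw [map_mul, map_mul, map_mul, haev, haev, haev, aeval_C] at h1
      have h3 : algebraMap κ K c' = c := rfl
      rw [h3] at h1
      simp only [hv]
      rw [div_eq_div_iff (hprod t ht _) (hprod t ht _), h1]
    rw [hval 2 two_ne_zero, hval 1 one_ne_zero]
    simp only [prod_bt, one_pow, one_mul]
    intro heq
    have h1 : (2 : K) ^ (-e i0).toNat ≠ 0 := pow_ne_zero _ two_ne_zero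
    have h2 := hprodb fun i => (e i).toNat
    have h3 := hprodb fun i => (-e i).toNat
    have h4 : (2 : K) ^ (e i0).toNat = 2 ^ (-e i0).toNat := by
      rw [div_eq_div_iff (mul_ne_zero h1 h3) h3] at heq
      have h5 : (c * (∏ i, b i ^ (e i).toNat) * ∏ i, b i ^ (-e i).toNat) ≠ 0 :=
        mul_ne_zero (mul_ne_zero hc0 h2) h3
      apply mul_left_cancel₀ h5
      linear_combination heq
    have h5 : (2 : ℕ) ^ (e i0).toNat = 2 ^ (-e i0).toNat := by exact_mod_cast h4
    have h6 := Nat.pow_right_injective le_rfl h5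
    omega

end Pool.Agent.N130.LG
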