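import Pool.Agent.N754.LG.Stm

/-!
Frames of regular and logarithmic derivations at a place.
-/

set_option autoImplicit false

open FF Pool.Agent.W603.LV Pool.Agent.N754.LG
open Pool.Agent.W602.GT (Divisorial DerReg DerLog logder_eq unit_mul ge_logder_log ge_logder_reg
  ge_div ge_ord)

namespace Pool.Agent.N130.LG

variable {k K : Type} [Field k] [Field K] [Algebra k K]

theorem derLog_of_ge {P : Place k K} {D : Derivation k K K} (hD : DerReg P D) {π : K}
    (hπ0 : π ≠ 0) (hπ : P.ord π = 1) (h : Ge P 1 (D π)) : DerLog P D := by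
  intro f
  rcases eq_or_ne f 0 with rfl | hf
  · rw [div_zero]
    exact P.reg_zero
  obtain ⟨u, hu, hu0, -, hl⟩ := logder_eq P D hπ hf
  rw [hl]
  refine P.reg_add (ge_logder_reg hD hu hu0) (P.reg_mul (Ge.intCast (P := P) _) ?_)
  have := ge_div hπ0 h
  rw [hπ, sub_self] at this
  exact this

/-- determinants are of order at least the sum over the columns -/
theorem ge_det {P : Place k K} {w : ℕ} (M : Matrix (Fin w) (Fin w) K)
    (hM : ∀ a j, Ge P 0 (M a j)) : Ge P 0 M.det := by
  rw [Matrix.det_apply]
  refine Ge.sum _ _ fun σ _ => ?_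
  have h1 : Ge P 0 (∏ i, M (σ i) i) := by
    have := Ge.prod (P := P) Finset.univ (fun i => M (σ i) i) (fun _ => 0) fun i _ => hM _ _
    simpa using this
  rw [Units.smul_def, zsmul_eq_mul]
  have := (Ge.intCast (P := P) (k := k) ((Equiv.Perm.sign σ : ℤˣ) : ℤ)).mul h1
  simpa using this

theorem lf1 [CharZero k] {w : ℕ} (b : Fin w → K) (P : Place k K)
    (E : Fin w → Derivation k K K) (hE : ∀ a, DerReg P (E a)) (hrho : rho b E ≠ 0) :
    ∃ E' : Fin w → Derivation k K K, (∀ a, DerLog P (E' a)) ∧ rho b E' ≠ 0 ∧
      P.ord (rho b E') ≤ P.ord (rho b E) + 1 := by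
  classical
  obtain ⟨π, hπ0, hπ⟩ := P.surj
  by_cases hall : ∀ a, Ge P 1 (E a π)
  · exact ⟨E, fun a => derLog_of_ge (hE a) hπ0 hπ (hall a), hrho, by omega⟩
  push Not at hall
  obtain ⟨s, hs⟩ := hall
  have hne : E s π ≠ 0 := fun h => hs (Or.inl h)
  have hge : 0 ≤ P.ord (E s π) := (hE s π (Or.inr (by omega))).resolve_left hne
  have h0 : P.ord (E s π) = 0 := by
    have : ¬ 1 ≤ P.ord (E s π) := fun h => hs (Or.inr h)
    omega
  -- the new frame
  obtain ⟨c, hc⟩ : ∃ c : Fin w → K, c = fun a => if a = s then π else -(E a π / E s π) := ⟨_, rfl⟩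
  have hcreg : ∀ a, Ge P 0 (c a) := by
    intro a
    rw [hc]
    dsimp only
    split_ifs
    · exact Or.inr (by omega)
    · refine Ge.neg ?_
      have := ge_div hne (hE a π (Or.inr (by omega)))
      rw [h0] at this
      simpa using this
  obtain ⟨E', hE'⟩ : ∃ E' : Fin w → Derivation k K K,
      E' = fun a => (if a = s then 0 else E a) + c a • E s := ⟨_, rfl⟩
  have hE'a : ∀ a x, E' a x = (if a = s then 0 else E a x) + c a * E s x := by
    intro a x
    rw [hE']
    dsimp only
    split_ifs <;> simp
  have hreg : ∀ a, DerReg P (E' a) := by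
    intro a f hf
    rw [hE'a]
    refine P.reg_add ?_ (P.reg_mul (hcreg a) (hE s f hf))
    split_ifs
    · exact P.reg_zero
    · exact hE a f hf
  have hdet : rho b E' = π * rho b E := by
    have hA : ((1 : Matrix (Fin w) (Fin w) K).updateCol s c).det = π := by
      rw [← Matrix.cramer_apply, Matrix.cramer_one, hc]
      simp
    have hmul : (Matrix.of fun a j => E' a (b j) / b j) =
        ((1 : Matrix (Fin w) (Fin w) K).updateCol s c) * (Matrix.of fun a j => E a (b j) / b j) := by
      ext a j
      rw [Matrix.mul_apply]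
      simp only [Matrix.of_apply, Matrix.updateCol_apply, Matrix.one_apply]
      rw [hE'a]
      have h1 : ∀ x : Fin w, (if x = s then c a else if a = x then 1 else 0) * (E x (b j) / b j) =
          (if x = s then c a * (E s (b j) / b j) else 0) +
          (if a = x then (if a = s then 0 else E a (b j) / b j) else 0) := by
        intro x
        by_cases hxs : x = s
        · subst hxs
          by_cases hax : a = x
          · simp [hax]
          · simp [hax]
        · by_cases hax : a = x
          · subst hax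
            simp [hxs]
          · simp [hxs, hax]
      rw [Finset.sum_congr rfl fun x _ => h1 x, Finset.sum_add_distrib]
      simp only [Finset.sum_ite_eq, Finset.sum_ite_eq', Finset.mem_univ, if_true]
      split_ifs
      · ring
      · ring
    rw [rho, hmul, Matrix.det_mul, hA, rho]
  refine ⟨E', fun a => derLog_of_ge (hreg a) hπ0 hπ ?_, ?_, ?_⟩
  · rw [hE'a]
    by_cases ha : a = s
    · rw [if_pos ha, hc]
      simp only [if_pos ha, zero_add]
      have h1 : Ge P 1 π := Or.inr (by omega)
      have := h1.mul (N := 1) (M := 0) (hE s π (Or.inr (by omega)))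
      simpa using this
    · rw [if_neg ha, hc]
      simp only [if_neg ha]
      left
      field_simp
      ring
  · rw [hdet]
    exact mul_ne_zero hπ0 hrho
  · rw [hdet, P.ord_mul hπ0 hrho, hπ]
    omega

theorem lf2 [CharZero k] {w : ℕ} (b : Fin w → K) (D : Fin w → Derivation k K K) (hD : Dual b D)
    (hb : ∀ j, b j ≠ 0) (P : Place k K)
    (E : Fin w → Derivation k K K) (hE : ∀ a, DerReg P (E a)) (hb0 : ∀ j, P.ord (b j) = 0)
    (hrho : rho b E ≠ 0) (hord : P.ord (rho b E) = 0) (j : Fin w) : DerReg P (D j) := by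
  classical
  intro x hx
  set M : Matrix (Fin w) (Fin w) K := Matrix.of fun a j => E a (b j) / b j with hM
  have hMreg : ∀ a j, Ge P 0 (M a j) := fun a j => ge_logder_reg (hE a) (hb j) (hb0 j)
  have hmul : M.mulVec (fun j => D j x) = fun a => E a x := by
    ext a
    rw [hD.2 (E a) x]
    rfl
  have hdet : M.det ≠ 0 := hrho
  have hcr : M.det * D j x = ∑ a, M.adjugate j a * E a x := by
    have h1 : (M.adjugate * M).mulVec (fun j => D j x) = M.adjugate.mulVec fun a => E a x := by
      rw [← Matrix.mulVec_mulVec, hmul]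
    rw [Matrix.adjugate_mul, Matrix.smul_mulVec, Matrix.one_mulVec] at h1
    have h2 := congrFun h1 j
    simpa [Matrix.mulVec, dotProduct] using h2
  have hadj : ∀ a, Ge P 0 (M.adjugate j a) := by
    intro a
    rw [Matrix.adjugate_apply]
    refine ge_det _ fun i l => ?_
    rw [Matrix.updateRow_apply]
    split_ifs
    · by_cases h : l = j
      · subst h; simpa using Ge.one (P := P)
      · simpa [Pi.single_apply, h] using Ge.zero (P := P)
    · exact hMreg i l
  have h3 : Ge P 0 (M.det * D j x) := by
    rw [hcr]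
    refine Ge.sum _ _ fun a _ => ?_
    have := (hadj a).mul (N := 0) (M := 0) (hE a x hx)
    simpa using this
  have h4 : P.ord M.det = 0 := hord
  have := Ge.of_mul hdet h3
  rw [h4, sub_zero] at this
  exact this

theorem lf3 [CharZero k] {w : ℕ} (b : Fin w → K) (D : Fin w → Derivation k K K) (hD : Dual b D)
    (P : Place k K)
    (E : Fin w → Derivation k K K) (hE : ∀ a, DerLog P (E a)) (h : K) (j : Fin w) :
    Ge P (P.ord h) (D j h * rho b E) := by
  classical
  rcases eq_or_ne h 0 with rfl | hh
  · left
    simp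
  set M : Matrix (Fin w) (Fin w) K := Matrix.of fun a j => E a (b j) / b j with hM
  have hMreg : ∀ a j, Ge P 0 (M a j) := fun a j => hE a (b j)
  have hmul : M.mulVec (fun j => D j h) = fun a => E a h := by
    ext a
    rw [hD.2 (E a) h]
    rfl
  have hcr : M.det * D j h = ∑ a, M.adjugate j a * E a h := by
    have h1 : (M.adjugate * M).mulVec (fun j => D j h) = M.adjugate.mulVec fun a => E a h := by
      rw [← Matrix.mulVec_mulVec, hmul]
    rw [Matrix.adjugate_mul, Matrix.smul_mulVec, Matrix.one_mulVec] at h1
    have h2 := congrFun h1 j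
    simpa [Matrix.mulVec, dotProduct] using h2
  have hadj : ∀ a, Ge P 0 (M.adjugate j a) := by
    intro a
    rw [Matrix.adjugate_apply]
    refine ge_det _ fun i l => ?_
    rw [Matrix.updateRow_apply]
    split_ifs
    · by_cases h : l = j
      · subst h; simpa using Ge.one (P := P)
      · simpa [Pi.single_apply, h] using Ge.zero (P := P)
    · exact hMreg i l
  have h3 : Ge P (P.ord h) (M.det * D j h) := by
    rw [hcr]
    refine Ge.sum _ _ fun a _ => ?_
    have h4 : Ge P (P.ord h) (E a h) := by
      have h5 : Ge P 0 (E a h / h) := hE a h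
      have := h5.mul (ge_ord P h)
      rw [div_mul_cancel₀ _ hh] at this
      simpa using this
    have := (hadj a).mul h4
    simpa using this
  rw [mul_comm]
  exact h3

/-- frames at a place -/
theorem lf : LF := by
  intro k K _ _ _ _ w b D hD hb P
  exact ⟨fun E hE h0 => lf1 b P E hE h0, fun E hE hb0 h0 h1 j => lf2 b D hD hb P E hE hb0 h0 h1 j,
    fun E hE h j => lf3 b D hD P E hE h j⟩

end Pool.Agent.N130.LG
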